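import Mathlib

namespace Pool.Agent.Results.MP_2b57cc_co.Linear

open Finset

/-- `F` contains an induced copy of the poset `P`. -/
def HasCopy (P : Type) [PartialOrder P] {n : ℕ} (F : Finset (Finset (Fin n))) : Prop :=
  ∃ b : P → Finset (Fin n), Function.Injective b ∧ (∀ p, b p ∈ F) ∧ ∀ p q, p ≤ q ↔ b p ⊆ b q

/-- `F` is induced `P`-saturated in the Boolean lattice on `Fin n`. -/
def Saturated (P : Type) [PartialOrder P] {n : ℕ} (F : Finset (Finset (Fin n))) : Prop :=
  ¬ HasCopy P F ∧ ∀ G : Finset (Fin n), G ∉ F → HasCopy P (insert G F)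

theorem HasCopy.mono {P : Type} [PartialOrder P] {n : ℕ} {F F' : Finset (Finset (Fin n))}
    (h : HasCopy P F) (hs : F ⊆ F') : HasCopy P F' := by
  obtain ⟨b, h1, h2, h3⟩ := h
  exact ⟨b, h1, fun p => hs (h2 p), h3⟩

theorem hasCopy_of {P : Type} [PartialOrder P] {n : ℕ} {F : Finset (Finset (Fin n))}
    (b : P → Finset (Fin n)) (h2 : ∀ p, b p ∈ F) (h3 : ∀ p q, p ≤ q ↔ b p ⊆ b q) :
    HasCopy P F := by
  refine ⟨b, fun p q h => le_antisymm ?_ ?_, h2, h3⟩
  · exact (h3 p q).2 (h ▸ Subset.refl _)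
  · exact (h3 q p).2 (h ▸ Subset.refl _)

theorem exists_sat (P : Type) [PartialOrder P] {n : ℕ} (F0 : Finset (Finset (Fin n)))
    (h : ¬ HasCopy P F0) : ∃ F, F0 ⊆ F ∧ Saturated P F := by
  classical
  obtain ⟨F, hF, hmax⟩ := Finset.exists_max_image
    (univ.filter fun F : Finset (Finset (Fin n)) => F0 ⊆ F ∧ ¬ HasCopy P F) Finset.card
    ⟨F0, by simp [h]⟩
  simp only [mem_filter, mem_univ, true_and] at hF hmax
  refine ⟨F, hF.1, hF.2, fun G hG => ?_⟩
  by_contra hc
  have := hmax (insert G F) ⟨hF.1.trans (subset_insert _ _), hc⟩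
  rw [card_insert_of_notMem hG] at this
  omega

/-- the subset of `Fin n` cut out by a predicate on naturals -/
noncomputable def mk (n : ℕ) (p : ℕ → Prop) : Finset (Fin n) := by
  classical exact univ.filter fun y => p y.val

theorem mem_mk {n : ℕ} {p : ℕ → Prop} {y : Fin n} : y ∈ mk n p ↔ p y.val := by
  unfold mk; simp

theorem mk_sub {n : ℕ} {p q : ℕ → Prop} : mk n p ⊆ mk n q ↔ ∀ y, y < n → p y → q y := by
  constructor
  · intro h y hy hp
    exact mem_mk.1 (h (mem_mk.2 (show p (⟨y, hy⟩ : Fin n).val from hp)))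
  · intro h y hy
    exact mem_mk.2 (h _ y.2 (mem_mk.1 hy))

noncomputable def Lset (n : ℕ) (S : Finset ℕ) (e : ℕ) : Finset (Fin n) :=
  mk n fun y => y ∈ S ∨ y = e

noncomputable def Uset (n r : ℕ) (S : Finset ℕ) (x : ℕ) : Finset (Fin n) :=
  mk n fun y => y ∈ S ∨ (r ≤ y ∧ y ≠ x)

def Cmp (n r : ℕ) (H : Finset (Fin n)) (v : ℕ) : Prop :=
  ∃ S : Finset ℕ, ∃ e : ℕ, S ⊆ range r ∧ r ≤ e ∧ e < n ∧
    ((H = Lset n S e ∧ S.card = v) ∨ (H = Uset n r S e ∧ S.card + 1 = v))

theorem cmp_lt {n r : ℕ} (hn : r + 3 ≤ n) {H H' : Finset (Fin n)} {v v' : ℕ}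
    (h : Cmp n r H v) (h' : Cmp n r H' v') (hs : H ⊆ H') (hne : H ≠ H') : v < v' := by
  obtain ⟨S, e, hS, he, hen, h⟩ := h
  obtain ⟨S', e', hS', he', hen', h'⟩ := h'
  have hSr : ∀ y ∈ S, y < r := fun y hy => mem_range.1 (hS hy)
  have hSr' : ∀ y ∈ S', y < r := fun y hy => mem_range.1 (hS' hy)
  rcases h with ⟨rfl, rfl⟩ | ⟨rfl, rfl⟩ <;> rcases h' with ⟨rfl, rfl⟩ | ⟨rfl, rfl⟩
  · rw [Lset, Lset, mk_sub] at hs
    have hee : e = e' := by
      rcases hs e hen (Or.inr rfl) with h | h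
      · have := hSr' e h; omega
      · exact h
    subst hee
    have hSS : S ⊆ S' := fun y hy => by
      have := hSr y hy
      rcases hs y (by omega) (Or.inl hy) with h | h
      · exact h
      · omega
    refine card_lt_card ⟨hSS, fun h => hne ?_⟩
    rw [Subset.antisymm hSS h]
  · rw [Lset, Uset, mk_sub] at hs
    have hSS : S ⊆ S' := fun y hy => by
      have := hSr y hy
      rcases hs y (by omega) (Or.inl hy) with h | h
      · exact h
      · omega
    have := card_le_card hSS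
    omega
  · exfalso
    rw [Lset, Uset, mk_sub] at hs
    have key : ∀ y, r ≤ y → y < n → y ≠ e → y = e' := fun y h1 h2 h3 => by
      rcases hs y h2 (Or.inr ⟨h1, h3⟩) with h | h
      · have := hSr' y h; omega
      · exact h
    have a1 := key r le_rfl (by omega)
    have a2 := key (r + 1) (by omega) (by omega)
    have a3 := key (r + 2) (by omega) (by omega)
    omega
  · rw [Uset, Uset, mk_sub] at hs
    have hee : e' = e := by
      by_contra hc
      rcases hs e' hen' (Or.inr ⟨he', hc⟩) with h | h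
      · have := hSr' e' h; omega
      · exact h.2 rfl
    subst hee
    have hSS : S ⊆ S' := fun y hy => by
      have := hSr y hy
      rcases hs y (by omega) (Or.inl hy) with h | h
      · exact h
      · omega
    have : S.card < S'.card := by
      refine card_lt_card ⟨hSS, fun h => hne ?_⟩
      rw [Subset.antisymm hSS h]
    omega

noncomputable def Wset (n r m k τ c l : ℕ) : Finset (Fin n) :=
  mk n fun y => (r ≤ y ∧ y < r + τ * (m * k)) ∨
    (r + τ * (m * k) + c * k ≤ y ∧ y ≤ r + τ * (m * k) + c * k + l)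

theorem ck_lt {m k c l : ℕ} (hc : c < m) (hl : l < k) : c * k + l < m * k := by
  have : (c + 1) * k ≤ m * k := Nat.mul_le_mul_right _ hc
  nlinarith

theorem W_chain {n r m k c : ℕ} (hc : c < m) {τ τ' l l' : ℕ} (hl : l < k)
    (h : τ < τ' ∨ (τ = τ' ∧ l ≤ l')) : Wset n r m k τ c l ⊆ Wset n r m k τ' c l' := by
  rw [Wset, Wset, mk_sub]
  intro y _ hy
  rcases h with h | ⟨rfl, h⟩
  · have h1 : (τ + 1) * (m * k) ≤ τ' * (m * k) := Nat.mul_le_mul_right _ h
    have h2 := ck_lt hc hl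
    have h3 : (τ + 1) * (m * k) = τ * (m * k) + m * k := by ring
    left
    omega
  · omega

theorem W_iff {n r m k τ : ℕ} (hn : r + τ * (m * k) + m * k ≤ n) {c c' l l' : ℕ} (hc : c < m)
    (hl : l < k) (hl' : l' < k) (h : Wset n r m k τ c l ⊆ Wset n r m k τ c' l') :
    c = c' ∧ l ≤ l' := by
  rw [Wset, Wset, mk_sub] at h
  have h2 := ck_lt hc hl
  have h3 := h (r + τ * (m * k) + c * k + l) (by omega) (Or.inr ⟨by omega, le_rfl⟩)
  have h4 : c' * k ≤ c * k + l ∧ c * k + l ≤ c' * k + l' := by omega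
  have hcc : c = c' := by
    rcases lt_trichotomy c c' with h5 | h5 | h5
    · have := ck_lt h5 hl; omega
    · exact h5
    · have := ck_lt h5 hl'; omega
  subst hcc
  exact ⟨rfl, by omega⟩

/-- a maximal chain of subsets of `range r` through `A` -/
theorem exists_flag {r : ℕ} (A : Finset ℕ) (hA : A ⊆ range r) :
    ∃ c : ℕ → Finset ℕ, Monotone c ∧ (∀ v, c v ⊆ range r) ∧ (∀ v, v ≤ r → (c v).card = v) ∧
      c A.card = A := by
  set l : List ℕ := A.toList ++ (range r \ A).toList with hl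
  have hnd : l.Nodup := by
    rw [hl, List.nodup_append]
    refine ⟨A.nodup_toList, (range r \ A).nodup_toList, ?_⟩
    intro a ha b hb hab
    subst hab
    simp only [mem_toList, mem_sdiff] at ha hb
    exact hb.2 ha
  have hlen : l.length = r := by
    rw [hl, List.length_append, length_toList, length_toList, card_sdiff_of_subset hA, card_range]
    have := card_le_card hA
    rw [card_range] at this
    omega
  refine ⟨fun v => (l.take v).toFinset, ?_, ?_, ?_, ?_⟩
  · intro v w hvw y hy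
    simp only [List.mem_toFinset] at hy ⊢
    exact (List.take_prefix_take_left hvw).subset hy
  · intro v y hy
    simp only [List.mem_toFinset] at hy
    have := List.mem_of_mem_take hy
    rw [hl, List.mem_append, mem_toList, mem_toList] at this
    rcases this with h | h
    · exact hA h
    · exact (mem_sdiff.1 h).1
  · intro v hv
    show (l.take v).toFinset.card = v
    rw [List.toFinset_card_of_nodup (hnd.sublist (List.take_sublist _ _)), List.length_take, hlen]
    omega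
  · show (l.take A.card).toFinset = A
    rw [hl, ← length_toList A, List.take_left, toList_toFinset]

theorem exists_chain {n r s x e : ℕ} (hsr : s ≤ r) (G : Finset (Fin n))
    (hx : r ≤ x) (hxn : x < n) (he : r ≤ e) (hen : e < n) (hxe : e ≠ x)
    (hxG : (⟨x, hxn⟩ : Fin n) ∉ G) (heG : (⟨e, hen⟩ : Fin n) ∈ G)
    (hG : ∀ v, v + 1 < s → ¬ Cmp n r G v) :
    ∃ f : ℕ → Finset (Fin n), (∀ l, l < s → f l = G ∨ ∃ v, v + 1 < s ∧ Cmp n r (f l) v) ∧
      (∀ l l', l < s → l' < s → (l ≤ l' ↔ f l ⊆ f l')) ∧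
      ∀ l, (⟨e, hen⟩ : Fin n) ∈ f l ∧ (⟨x, hxn⟩ : Fin n) ∉ f l := by
  classical
  set A : Finset ℕ := (range r).filter fun y => ∃ h : y < n, (⟨y, h⟩ : Fin n) ∈ G with hA
  have hAr : A ⊆ range r := filter_subset _ _
  obtain ⟨c, hmono, hcr, hcard, hcA⟩ := exists_flag A hAr
  have hcr' : ∀ v y, y ∈ c v → y < r := fun v y hy => mem_range.1 (hcr v hy)
  set g := min (A.card + 1) (s - 1) with hg
  have hLG : ∀ l, l < g → Lset n (c l) e ⊆ G := by
    intro l hl y hy
    rcases mem_mk.1 hy with h | h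
    · have h1 : (y : ℕ) ∈ A := by
        rw [← hcA]; exact hmono (show l ≤ A.card by omega) h
      obtain ⟨_, h2⟩ := (mem_filter.1 h1).2
      exact h2
    · have : y = ⟨e, hen⟩ := Fin.ext h
      rw [this]; exact heG
  have hGU : ∀ l, g < l → l < s → G ⊆ Uset n r (c (l - 2)) x := by
    intro l hl hls y hy
    refine mem_mk.2 ?_
    by_cases h : (y : ℕ) < r
    · left
      have h1 : (y : ℕ) ∈ A := mem_filter.2 ⟨mem_range.2 h, y.2, hy⟩
      rw [← hcA] at h1
      exact hmono (show A.card ≤ l - 2 by omega) h1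
    · right
      refine ⟨by omega, fun h2 => hxG ?_⟩
      have : y = ⟨x, hxn⟩ := Fin.ext h2
      rw [← this]; exact hy
  have hCL : ∀ l, l < g → Cmp n r (Lset n (c l) e) l := fun l hl =>
    ⟨c l, e, hcr l, he, hen, Or.inl ⟨rfl, hcard l (by omega)⟩⟩
  have hCU : ∀ l, g < l → l < s → Cmp n r (Uset n r (c (l - 2)) x) (l - 1) := fun l hl hls =>
    ⟨c (l - 2), x, hcr _, hx, hxn, Or.inr ⟨rfl, by rw [hcard _ (by omega)]; omega⟩⟩
  have hnew : ∀ v w, v < w → w ≤ r → ∃ y, y ∈ c w ∧ y ∉ c v := by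
    intro v w hvw hw
    by_contra hc
    push Not at hc
    have := card_le_card (show c w ⊆ c v from hc)
    rw [hcard w hw, hcard v (by omega)] at this
    omega
  have hGL : ∀ l, l < g → ¬ G ⊆ Lset n (c l) e := by
    intro l hl h
    have h1 : G = Lset n (c l) e := Subset.antisymm h (hLG l hl)
    exact hG l (by omega) (h1 ▸ hCL l hl)
  have hUG : ∀ l, g < l → l < s → ¬ Uset n r (c (l - 2)) x ⊆ G := by
    intro l hl hls h
    have h1 : G = Uset n r (c (l - 2)) x := Subset.antisymm (hGU l hl hls) h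
    exact hG (l - 1) (by omega) (h1 ▸ hCU l hl hls)
  let f : ℕ → Finset (Fin n) := fun l =>
    if l < g then Lset n (c l) e else if l = g then G else Uset n r (c (l - 2)) x
  have f1 : ∀ l, l < g → f l = Lset n (c l) e := fun l hl => by simp [f, hl]
  have f2 : f g = G := by simp [f]
  have f3 : ∀ l, g < l → f l = Uset n r (c (l - 2)) x := fun l hl => by
    simp [f, show ¬ l < g by omega, show l ≠ g by omega]
  have key : ∀ l l', l < l' → l' < s → f l ⊆ f l' ∧ ¬ f l' ⊆ f l := by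
    intro l l' hll hl'
    rcases lt_trichotomy l g with h | h | h <;> rcases lt_trichotomy l' g with h' | h' | h'
    · rw [f1 l h, f1 l' h', Lset, Lset, mk_sub, mk_sub]
      refine ⟨fun y _ hy => hy.imp (fun h => hmono hll.le h) id, fun hc => ?_⟩
      obtain ⟨y, hy1, hy2⟩ := hnew l l' hll (by omega)
      have := hcr' _ _ hy1
      rcases hc y (by omega) (Or.inl hy1) with h | h
      · exact hy2 h
      · omega
    · rw [f1 l h, h', f2]
      exact ⟨hLG l h, hGL l h⟩
    · rw [f1 l h, f3 l' h']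
      exact ⟨(hLG l h).trans (hGU l' h' hl'), fun hc => hGL l h ((hGU l' h' hl').trans hc)⟩
    · omega
    · omega
    · rw [h, f2, f3 l' h']
      exact ⟨hGU l' h' hl', hUG l' h' hl'⟩
    · omega
    · omega
    · rw [f3 l h, f3 l' h', Uset, Uset, mk_sub, mk_sub]
      refine ⟨fun y _ hy => hy.imp (fun h => hmono (by omega) h) id, fun hc => ?_⟩
      obtain ⟨y, hy1, hy2⟩ := hnew (l - 2) (l' - 2) (by omega) (by omega)
      have := hcr' _ _ hy1
      rcases hc y (by omega) (Or.inl hy1) with h | h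
      · exact hy2 h
      · omega
  refine ⟨f, ?_, ?_, ?_⟩
  · intro l hl
    rcases lt_trichotomy l g with h | h | h
    · right; rw [f1 l h]; exact ⟨l, by omega, hCL l h⟩
    · left; rw [h, f2]
    · right; rw [f3 l h]; exact ⟨l - 1, by omega, hCU l h hl⟩
  · intro l l' hl hl'
    constructor
    · intro h
      rcases h.eq_or_lt with rfl | h
      · exact Subset.refl _
      · exact (key l l' h hl').1
    · intro h
      by_contra hc
      exact (key l' l (by omega) hl).2 h
  · intro l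
    rcases lt_trichotomy l g with h | h | h
    · rw [f1 l h, Lset, mem_mk, mem_mk]
      refine ⟨Or.inr rfl, ?_⟩
      rintro (h1 | h1)
      · have := hcr' _ _ h1; simp only at this; omega
      · exact hxe h1.symm
    · rw [h, f2]; exact ⟨heG, hxG⟩
    · rw [f3 l h, Uset, mem_mk, mem_mk]
      refine ⟨Or.inr ⟨he, hxe⟩, ?_⟩
      rintro (h1 | h1)
      · have := hcr' _ _ h1; simp only at this; omega
      · exact h1.2 rfl

theorem sigma_le {m : ℕ} {i : Fin m → ℕ} (p q : Σ j : Fin m, Fin (i j)) :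
    p ≤ q ↔ p.1 = q.1 ∧ p.2.val ≤ q.2.val := by
  obtain ⟨j, a⟩ := p
  obtain ⟨j', b⟩ := q
  constructor
  · intro h
    obtain ⟨h1, h2⟩ := Sigma.le_def.1 h
    simp only at h1
    subst h1
    exact ⟨rfl, h2⟩
  · rintro ⟨h1, h2⟩
    simp only at h1 h2
    subst h1
    exact Sigma.mk_le_mk_iff.2 h2

/-- the seed family -/
noncomputable def F0 (n r s m k : ℕ) (j0 : Fin m) : Finset (Finset (Fin n)) := by
  classical exact univ.filter fun H => (∃ v, v + 1 < s ∧ Cmp n r H v) ∨
    ∃ τ : ℕ, ∃ c : Fin m, ∃ l : ℕ, c ≠ j0 ∧ l < k ∧ H = Wset n r m k τ c l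

theorem mem_F0 {n r s m k : ℕ} {j0 : Fin m} {H : Finset (Fin n)} : H ∈ F0 n r s m k j0 ↔
    (∃ v, v + 1 < s ∧ Cmp n r H v) ∨
    ∃ τ : ℕ, ∃ c : Fin m, ∃ l : ℕ, c ≠ j0 ∧ l < k ∧ H = Wset n r m k τ c l := by
  unfold F0; simp only [mem_filter, mem_univ, true_and]

theorem F0_free {n r s m k : ℕ} (hn : r + 3 ≤ n) (j0 : Fin m) (i : Fin m → ℕ) (hs : 1 ≤ s)
    (hi : ∀ j, s ≤ i j) : ¬ HasCopy (Σ j : Fin m, Fin (i j)) (F0 n r s m k j0) := by
  classical
  rintro ⟨b, hinj, hmem, hle⟩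
  have h1 : ∀ j : Fin m, ∃ a : Fin (i j), ∃ τ : ℕ, ∃ c : Fin m, ∃ l : ℕ,
      c ≠ j0 ∧ l < k ∧ b ⟨j, a⟩ = Wset n r m k τ c l := by
    intro j
    by_contra hc
    have h2 : ∀ a : Fin (i j), ∃ v, v + 1 < s ∧ Cmp n r (b ⟨j, a⟩) v := by
      intro a
      rcases mem_F0.1 (hmem ⟨j, a⟩) with h | h
      · exact h
      · exact absurd ⟨a, h⟩ hc
    choose v hv1 hv2 using h2
    have hsm : StrictMono v := by
      intro a a' haa
      refine cmp_lt hn (hv2 a) (hv2 a') ((hle _ _).1 (Sigma.mk_le_mk_iff.2 haa.le)) ?_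
      intro h
      have := hinj h
      simp only [Sigma.mk.injEq, heq_eq_eq, true_and] at this
      exact haa.ne this
    have h3 : (univ : Finset (Fin (i j))).card ≤ (range (s - 1)).card := by
      refine card_le_card_of_injOn v (fun a _ => ?_) (hsm.injective.injOn)
      have := hv1 a
      simp only [coe_range, Set.mem_Iio]
      omega
    simp only [card_univ, Fintype.card_fin, card_range] at h3
    have := hi j
    omega
  choose a τ c l hc hl hb using h1
  have hcinj : Function.Injective c := by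
    intro j j' hjj
    have hcmp : b ⟨j, a j⟩ ⊆ b ⟨j', a j'⟩ ∨ b ⟨j', a j'⟩ ⊆ b ⟨j, a j⟩ := by
      rw [hb j, hb j', ← hjj]
      by_cases h : τ j < τ j' ∨ (τ j = τ j' ∧ l j ≤ l j')
      · exact Or.inl (W_chain (c j).2 (hl j) h)
      · exact Or.inr (W_chain (c j).2 (hl j') (by omega))
    rcases hcmp with h | h
    · exact ((sigma_le _ _).1 ((hle _ _).2 h)).1
    · exact ((sigma_le _ _).1 ((hle _ _).2 h)).1.symm
  obtain ⟨j, hj⟩ := (Finite.injective_iff_surjective.1 hcinj) j0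
  exact hc j hj

def Tube (n r D : ℕ) (G : Finset (Fin n)) : Prop :=
  ∃ t, r ≤ t ∧ t ≤ n ∧ ∀ y : Fin n, (r ≤ y.val → y.val < t → y ∈ G) ∧ (y ∈ G → y.val < t + D)

theorem F0_sat {n r m k : ℕ} (j0 : Fin m) (i : Fin m → ℕ) (hrn : r ≤ n) (hsr : i j0 ≤ r)
    (hk : ∀ j, i j ≤ k) (hk1 : 1 ≤ k) (G : Finset (Fin n))
    (hG : ∀ v, v + 1 < i j0 → ¬ Cmp n r G v) (hT : ¬ Tube n r (2 * (m * k)) G) :
    HasCopy (Σ j : Fin m, Fin (i j)) (insert G (F0 n r (i j0) m k j0)) := by
  classical
  have hex : ∃ y, r ≤ y ∧ ∀ h : y < n, (⟨y, h⟩ : Fin n) ∉ G := ⟨n, hrn, fun h => by omega⟩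
  set x := Nat.find hex with hx
  have hx1 := Nat.find_spec hex
  rw [← hx] at hx1
  have hxn : x ≤ n := Nat.find_min' hex ⟨hrn, fun h => by omega⟩
  have hx2 : ∀ y : Fin n, r ≤ y.val → y.val < x → y ∈ G := by
    intro y h1 h2
    have := Nat.find_min hex h2
    push Not at this
    obtain ⟨_, h⟩ := this h1
    exact h
  have he : ∃ e : Fin n, e ∈ G ∧ x + 2 * (m * k) ≤ e.val := by
    by_contra hc
    push Not at hc
    exact hT ⟨x, hx1.1, hxn, fun y => ⟨hx2 y, hc y⟩⟩
  obtain ⟨⟨e, hen⟩, heG, hxe⟩ := he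
  simp only at hxe
  have hd : 0 < m * k := Nat.mul_pos j0.pos hk1
  have hxn' : x < n := by omega
  obtain ⟨f, hf1, hf2, hf3⟩ := exists_chain hsr G hx1.1 hxn' (by omega) hen (by omega)
    (hx1.2 hxn') heG hG
  set τ := (x - r) / (m * k) + 1 with hτ
  have ht1 : x < r + τ * (m * k) := by
    have := Nat.lt_div_mul_add (a := x - r) hd
    have h2 : τ * (m * k) = (x - r) / (m * k) * (m * k) + m * k := by rw [hτ]; ring
    omega
  have ht2 : r + τ * (m * k) + m * k ≤ e := by
    have := Nat.div_mul_le_self (x - r) (m * k)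
    have h2 : τ * (m * k) = (x - r) / (m * k) * (m * k) + m * k := by rw [hτ]; ring
    have := hx1.1
    omega
  have hWx : ∀ c l, (⟨x, hxn'⟩ : Fin n) ∈ Wset n r m k τ c l := fun c l =>
    mem_mk.2 (Or.inl ⟨hx1.1, ht1⟩)
  have hWe : ∀ c l, c < m → l < k → (⟨e, hen⟩ : Fin n) ∉ Wset n r m k τ c l := by
    intro c l hc hl h
    have h1 := mem_mk.1 h
    have h2 := ck_lt hc hl
    simp only at h1
    omega
  refine hasCopy_of (fun p => if p.1 = j0 then f p.2.val else Wset n r m k τ p.1 p.2.val) ?_ ?_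
  · rintro ⟨j, a⟩
    by_cases h : j = j0
    · subst h
      simp only [if_true]
      rcases hf1 a a.2 with h | h
      · rw [h]; exact mem_insert_self _ _
      · exact mem_insert_of_mem (mem_F0.2 (Or.inl h))
    · simp only [h, if_false]
      exact mem_insert_of_mem (mem_F0.2 (Or.inr ⟨τ, j, a, h, lt_of_lt_of_le a.2 (hk j), rfl⟩))
  · rintro ⟨j, a⟩ ⟨j', a'⟩
    rw [sigma_le]
    have ha : a.val < k := lt_of_lt_of_le a.2 (hk j)
    have ha' : a'.val < k := lt_of_lt_of_le a'.2 (hk j')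
    by_cases h : j = j0 <;> by_cases h' : j' = j0
    · subst h; subst h'
      simp only [if_true, true_and]
      exact hf2 _ _ a.2 a'.2
    · subst h
      simp only [if_true, h', if_false]
      refine ⟨fun h => absurd h.1.symm h', fun h => absurd (h (hf3 _).1) (hWe _ _ j'.2 ha')⟩
    · subst h'
      simp only [if_true, h, if_false]
      refine ⟨fun h1 => h1.1.elim, fun h => absurd (h (hWx _ _)) (hf3 _).2⟩
    · simp only [h, h', if_false]
      constructor
      · rintro ⟨rfl, h2⟩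
        exact W_chain j.2 ha (Or.inr ⟨rfl, h2⟩)
      · intro h1
        obtain ⟨h2, h3⟩ := W_iff (by omega) j.2 ha ha' h1
        exact ⟨Fin.ext h2, h3⟩

theorem card_bound {n r D : ℕ} (F : Finset (Finset (Fin n)))
    (h : ∀ G ∈ F, (∃ v, Cmp n r G v) ∨ Tube n r D G) :
    F.card ≤ 2 ^ r * n + 2 ^ r * n + (n + 1) * (2 ^ r * 2 ^ D) := by
  classical
  set A1 := ((range r).powerset ×ˢ range n).image fun p : Finset ℕ × ℕ => Lset n p.1 p.2
  set A2 := ((range r).powerset ×ˢ range n).image fun p : Finset ℕ × ℕ => Uset n r p.1 p.2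
  set A3 := (range (n + 1) ×ˢ ((range r).powerset ×ˢ (range D).powerset)).image
    fun p : ℕ × Finset ℕ × Finset ℕ =>
      mk n fun y => y ∈ p.2.1 ∨ (r ≤ y ∧ y < p.1) ∨ (p.1 ≤ y ∧ y - p.1 ∈ p.2.2)
  have hsub : F ⊆ A1 ∪ A2 ∪ A3 := by
    intro G hG
    rcases h G hG with ⟨v, S, e, hS, he, hen, h | h⟩ | ⟨t, hrt, htn, ht⟩
    · refine mem_union_left _ (mem_union_left _ (mem_image.2 ⟨(S, e), ?_, h.1.symm⟩))
      simp [hS, hen]
    · refine mem_union_left _ (mem_union_right _ (mem_image.2 ⟨(S, e), ?_, h.1.symm⟩))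
      simp [hS, hen]
    · refine mem_union_right _ (mem_image.2 ⟨(t,
        (range r).filter (fun y => ∃ h : y < n, (⟨y, h⟩ : Fin n) ∈ G),
        (range D).filter (fun y => ∃ h : t + y < n, (⟨t + y, h⟩ : Fin n) ∈ G)), ?_, ?_⟩)
      · simp only [mem_product, mem_range, mem_powerset]
        exact ⟨by omega, filter_subset _ _, filter_subset _ _⟩
      · ext y
        rw [mem_mk]
        simp only [mem_filter, mem_range]
        constructor
        · rintro (⟨_, _, h⟩ | ⟨h1, h2⟩ | ⟨h1, _, h2, h3⟩)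
          · exact h
          · exact (ht y).1 h1 h2
          · have : (⟨t + (y.val - t), h2⟩ : Fin n) = y := Fin.ext (by simp only; omega)
            rw [← this]; exact h3
        · intro hy
          by_cases h1 : y.val < r
          · exact Or.inl ⟨h1, y.2, hy⟩
          by_cases h2 : y.val < t
          · exact Or.inr (Or.inl ⟨by omega, h2⟩)
          have h3 := (ht y).2 hy
          have h4 : t + (y.val - t) < n := by have := y.2; omega
          have : (⟨t + (y.val - t), h4⟩ : Fin n) = y := Fin.ext (by simp only; omega)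
          exact Or.inr (Or.inr ⟨by omega, by omega, h4, by rw [this]; exact hy⟩)
  have h1 : A1.card ≤ 2 ^ r * n := card_image_le.trans (by simp)
  have h2 : A2.card ≤ 2 ^ r * n := card_image_le.trans (by simp)
  have h3 : A3.card ≤ (n + 1) * (2 ^ r * 2 ^ D) := card_image_le.trans (by simp)
  have h4 := card_le_card hsub
  have h5 := card_union_le (A1 ∪ A2) A3
  have h6 := card_union_le A1 A2
  omega

theorem result (m : ℕ) (hm : 1 ≤ m) (i : Fin m → ℕ) (hi : ∀ j, 1 ≤ i j) :
    ∃ C : ℕ, ∀ n : ℕ, 1 ≤ n → ∃ F : Finset (Finset (Fin n)),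
      Saturated (Σ j : Fin m, Fin (i j)) F ∧ F.card ≤ C * n := by
  classical
  have hne : (univ : Finset (Fin m)).Nonempty := ⟨⟨0, hm⟩, mem_univ _⟩
  obtain ⟨j0, -, hj0⟩ := exists_min_image univ i hne
  obtain ⟨j1, -, hj1⟩ := exists_max_image univ i hne
  set r := i j0
  set k := i j1
  set D := 2 * (m * k)
  refine ⟨2 ^ (r + 3) + 2 ^ r + 2 ^ r + 2 * (2 ^ r * 2 ^ D), fun n hn => ?_⟩
  by_cases hnr : r + 3 ≤ n
  · obtain ⟨F, hF, hsat⟩ := exists_sat (Σ j : Fin m, Fin (i j)) (F0 n r r m k j0)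
      (F0_free hnr j0 i (hi j0) fun j => hj0 j (mem_univ _))
    refine ⟨F, hsat, ?_⟩
    have := card_bound (r := r) (D := D) F (by
      intro G hG
      by_contra hc
      push Not at hc
      refine hsat.1 ((F0_sat j0 i (by omega) le_rfl (fun j => hj1 j (mem_univ _)) (hi j1) G
        (fun v _ => hc.1 v) hc.2).mono ?_)
      exact insert_subset hG hF)
    have h2 : (n + 1) * (2 ^ r * 2 ^ D) ≤ 2 * (2 ^ r * 2 ^ D) * n := by
      have : n + 1 ≤ 2 * n := by omega
      calc (n + 1) * (2 ^ r * 2 ^ D) ≤ (2 * n) * (2 ^ r * 2 ^ D) := Nat.mul_le_mul_right _ this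
        _ = _ := by ring
    calc F.card ≤ 2 ^ r * n + 2 ^ r * n + 2 * (2 ^ r * 2 ^ D) * n := by omega
      _ ≤ 2 ^ (r + 3) * n + 2 ^ r * n + 2 ^ r * n + 2 * (2 ^ r * 2 ^ D) * n := by omega
      _ = _ := by ring
  · obtain ⟨F, -, hsat⟩ := exists_sat (Σ j : Fin m, Fin (i j)) (∅ : Finset (Finset (Fin n)))
      (by rintro ⟨b, -, h, -⟩; exact notMem_empty _ (h ⟨j0, ⟨0, hi j0⟩⟩))
    refine ⟨F, hsat, ?_⟩
    have h1 : F.card ≤ 2 ^ n := by
      have := card_le_univ F
      simpa using this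
    have h2 : 2 ^ n ≤ 2 ^ (r + 3) := Nat.pow_le_pow_right (by norm_num) (by omega)
    calc F.card ≤ (2 ^ (r + 3) + 2 ^ r + 2 ^ r + 2 * (2 ^ r * 2 ^ D)) * 1 := by
          rw [mul_one]
          exact (h1.trans h2).trans (by rw [add_assoc, add_assoc]; exact Nat.le_add_right _ _)
      _ ≤ _ := Nat.mul_le_mul_left _ hn

end Pool.Agent.Results.MP_2b57cc_co.Linear
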